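import Pool.Agent.Helper40.EA.KeyM
import Pool.Agent.Helper40.EA.Bd
import Pool.Agent.Helper96.EK.Num

/-!
# The border for monadic second-order sentences: the numbers
-/

set_option autoImplicit false

namespace Pool.Agent.Helper6.EA

lemma bd_dE2 (r m : ℕ) : Bd40 fun j => dE r (2 ^ ((r + 2) * j)) (2 ^ j) m := by
  induction m with
  | zero => exact bd_const 1
  | succ m ih => exact ih.add (bd_cD r (bd_two_pow (r + 2)) (bd_cB r ih) bd_q)

lemma bd_tE2 (r m : ℕ) : Bd40 fun j => tE r (2 ^ ((r + 2) * j)) (2 ^ j) m := by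
  induction m with
  | zero => exact bd_const 0
  | succ m ih =>
    exact (ih.add (bd_cT r (bd_two_pow (r + 2)) (bd_cB r (bd_dE2 r m)) bd_q)).add
      ((bd_const (4 * (r + 1) ^ 2)).mul (bd_dE2 r m))

/-- ME2: the numbers for monadic second-order sentences, for a given `C` -/
def NumM (r a b C j : ℕ) : Prop :=
  2 ^ (C * ((j + 2) * 2 ^ (j + 1))) * (cB r (dE r (2 ^ ((r + 2) * j)) (2 ^ j) r)) ^ 2 *
      (r * 2 ^ ((r + 2) * j) + 1) ^ r * 2 ^ j * ((2 ^ j) ^ r - 1) ^ 2 ^ ((r + 2) * j) ≤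
        ((2 ^ j) ^ r) ^ 2 ^ ((r + 2) * j) ∧
  (2 ^ j - 1) ^ ((j + 1) * 2 ^ j + 1) * 2 ^ j ≤ (2 ^ j) ^ ((j + 1) * 2 ^ j + 1) ∧
  (((j + 1) * 2 ^ j + 1) * (dE r (2 ^ ((r + 2) * j)) (2 ^ j) r + 1) ^ 2) ^ (Nat.log 2 ((j + 1) * 2 ^ j) + 1) ≤
    2 ^ (C * ((j + 1) * 2 ^ j)) ∧
  (j + 1) * 2 ^ j * (2 ^ (a * ((j + 1) * 2 ^ j) + b) + tE r (2 ^ ((r + 2) * j)) (2 ^ j) r + 3 * r + 3) ≤
    2 ^ (C * ((j + 1) * 2 ^ j))

/-- linear against exponential -/
lemma lin_le (c : ℕ) : ∃ j₀, 1 ≤ j₀ ∧ ∀ j, j₀ ≤ j → c * (j + 2) ≤ 2 ^ j := by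
  have h : ∀ j, (c + 3) * (j + 1) ≤ 2 ^ (c + 3 + j) := by
    intro j
    have h1 : c + 3 < 2 ^ (c + 3) := Nat.lt_two_pow_self
    have h2 : j < 2 ^ j := Nat.lt_two_pow_self
    rw [pow_add]
    exact Nat.mul_le_mul h1.le h2
  refine ⟨2 * (c + 3), by omega, fun j hj => ?_⟩
  obtain ⟨i, rfl⟩ : ∃ i, j = c + 3 + i := ⟨j - (c + 3), by omega⟩
  have h1 := h i
  have h2 : c * (c + 3 + i + 2) ≤ (c + 3) * (i + 1) + c * (c + 3 + 1) := by nlinarith
  have h3 : c + 3 ≤ i := by omega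
  have h4 : ∀ i, c + 3 ≤ i → c * (c + 3 + i + 2) ≤ 2 ^ (c + 3 + i) := by
    intro i hi
    induction i, hi using Nat.le_induction with
    | base =>
      have h5 : (c + 3) < 2 ^ (c + 3) := Nat.lt_two_pow_self
      have h6 : (c + 3 + 1) * (c + 3 + 1) ≤ 2 ^ (c + 3) * 2 ^ (c + 3) := Nat.mul_le_mul h5 h5
      have h8 : ∀ c : ℕ, c * (c + 3 + (c + 3) + 2) ≤ 2 ^ (c + 3 + (c + 3)) := by
        intro c
        induction c with
        | zero => simp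
        | succ c ih =>
          have e : 2 ^ (c + 1 + 3 + (c + 1 + 3)) = 4 * 2 ^ (c + 3 + (c + 3)) := by
            rw [show c + 1 + 3 + (c + 1 + 3) = c + 3 + (c + 3) + 2 by ring, pow_add]
            ring
          have e2 : 16 ≤ 2 ^ (c + 3 + (c + 3)) := by
            calc 16 = 2 ^ 4 := by norm_num
              _ ≤ _ := Nat.pow_le_pow_right (by norm_num) (by omega)
          rw [e]
          have h9 : c ≤ 2 ^ (c + 3 + (c + 3)) := by
            refine (Nat.lt_two_pow_self (n := c)).le.trans (Nat.pow_le_pow_right (by norm_num) (by omega))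
          nlinarith
      exact h8 c
    | succ i hi ih =>
      have e : 2 ^ (c + 3 + (i + 1)) = 2 ^ (c + 3 + i) + 2 ^ (c + 3 + i) := by
        rw [← add_assoc, pow_succ]
        ring
      rw [e]
      have h9 : c ≤ 2 ^ (c + 3 + i) :=
        (Nat.lt_two_pow_self (n := c)).le.trans (Nat.pow_le_pow_right (by norm_num) (by omega))
      nlinarith
  exact h4 i h3

/-- ME2: the numbers -/
theorem numM (r a b : ℕ) : ∃ C j₀ : ℕ, 1 ≤ C ∧ 1 ≤ j₀ ∧ ∀ j, j₀ ≤ j → NumM r a b C j := by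
  obtain ⟨c1, h1⟩ := bd_dE2 r r
  obtain ⟨c2, h2⟩ := bd_tE2 r r
  obtain ⟨c3, h3⟩ := (((bd_cB r (bd_dE2 r r)).pow 2).mul
    (((bd_const r).mul (bd_two_pow (r + 2))).add (bd_const 1) |>.pow r)).mul bd_q
  obtain ⟨C, hC⟩ : ∃ C, C = 3 * (2 * c1 + 5) + (a + b + c2 + 3 * r + 8) := ⟨_, rfl⟩
  obtain ⟨j₀, hj0, hlin⟩ := lin_le (2 * C + c3)
  refine ⟨C, j₀, by omega, hj0, fun j hj => ⟨?_, ?_, ?_, ?_⟩⟩
  · -- the union bound
    have hj1 : 1 ≤ j := hj0.trans hj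
    have k1 := h3 j hj1
    beta_reduce at k1
    have k2 := hlin j hj
    have e1 : (2 ^ j) ^ r = 2 ^ (r * j) := by rw [← pow_mul, mul_comm]
    have e2 : 2 ^ ((r + 2) * j) = 2 ^ (r * j) * 2 ^ (2 * j) := by rw [← pow_add]; congr 1; ring
    have k3 := Pool.Agent.Helper12.EK.num_aux3 (q := 2 ^ (r * j)) Nat.one_le_two_pow (2 ^ (2 * j))
    rw [e1]
    have k4 : 2 ^ (C * ((j + 2) * 2 ^ (j + 1))) * (cB r (dE r (2 ^ ((r + 2) * j)) (2 ^ j) r)) ^ 2 *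
        (r * 2 ^ ((r + 2) * j) + 1) ^ r * 2 ^ j ≤ 2 ^ 2 ^ (2 * j) := by
      calc 2 ^ (C * ((j + 2) * 2 ^ (j + 1))) * (cB r (dE r (2 ^ ((r + 2) * j)) (2 ^ j) r)) ^ 2 *
          (r * 2 ^ ((r + 2) * j) + 1) ^ r * 2 ^ j
          = 2 ^ (C * ((j + 2) * 2 ^ (j + 1))) * ((cB r (dE r (2 ^ ((r + 2) * j)) (2 ^ j) r)) ^ 2 *
          (r * 2 ^ ((r + 2) * j) + 1) ^ r * 2 ^ j) := by simp only [mul_assoc]
        _ ≤ 2 ^ (C * ((j + 2) * 2 ^ (j + 1))) * 2 ^ (c3 * j) := Nat.mul_le_mul_left _ k1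
        _ = 2 ^ (C * ((j + 2) * 2 ^ (j + 1)) + c3 * j) := (pow_add _ _ _).symm
        _ ≤ 2 ^ 2 ^ (2 * j) := by
          apply Nat.pow_le_pow_right (by norm_num)
          calc C * ((j + 2) * 2 ^ (j + 1)) + c3 * j ≤ (2 * C + c3) * (j + 2) * 2 ^ j := by
                have h5 : 1 ≤ 2 ^ j := Nat.one_le_two_pow
                have h6 : c3 * j ≤ c3 * (j + 2) * 2 ^ j := by
                  calc c3 * j ≤ c3 * (j + 2) := Nat.mul_le_mul_left _ (by omega)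
                    _ ≤ _ := Nat.le_mul_of_pos_right _ (by omega)
                calc C * ((j + 2) * 2 ^ (j + 1)) + c3 * j
                    ≤ C * ((j + 2) * 2 ^ (j + 1)) + c3 * (j + 2) * 2 ^ j := Nat.add_le_add_left h6 _
                  _ = _ := by rw [pow_succ]; ring
            _ ≤ 2 ^ j * 2 ^ j := Nat.mul_le_mul_right _ k2
            _ = 2 ^ (2 * j) := by rw [← pow_add]; congr 1; ring
    rw [e2] at k4 ⊢
    exact (Nat.mul_le_mul_right _ k4).trans k3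
  · -- the balls
    have k3 := Pool.Agent.Helper12.EK.num_aux3 (q := 2 ^ j) Nat.one_le_two_pow (j + 1)
    calc (2 ^ j - 1) ^ ((j + 1) * 2 ^ j + 1) * 2 ^ j
        = (2 ^ j * (2 ^ j - 1) ^ (2 ^ j * (j + 1))) * (2 ^ j - 1) := by
          rw [pow_succ, mul_comm (j + 1) (2 ^ j)]
          ring
      _ ≤ (2 ^ (j + 1) * (2 ^ j - 1) ^ (2 ^ j * (j + 1))) * 2 ^ j :=
          Nat.mul_le_mul (Nat.mul_le_mul_right _ (Nat.pow_le_pow_right (by norm_num) (by omega)))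
            (Nat.sub_le _ _)
      _ ≤ (2 ^ j) ^ (2 ^ j * (j + 1)) * 2 ^ j := Nat.mul_le_mul_right _ k3
      _ = _ := by rw [pow_succ, mul_comm (j + 1) (2 ^ j)]
  · -- the orbits
    have hj1 : 1 ≤ j := hj0.trans hj
    have k1 := h1 j hj1
    beta_reduce at k1
    have hM : (j + 1) * 2 ^ j + 1 ≤ 2 ^ (2 * j + 1) := by
      have h5 : j + 1 ≤ 2 ^ j := Nat.lt_two_pow_self
      have h6 : 1 ≤ 2 ^ j := Nat.one_le_two_pow
      calc (j + 1) * 2 ^ j + 1 ≤ 2 ^ j * 2 ^ j + 2 ^ j * 2 ^ j := Nat.add_le_add (Nat.mul_le_mul_right _ h5) (Nat.mul_pos h6 h6)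
        _ = 2 ^ (2 * j + 1) := by rw [pow_succ, two_mul j, pow_add]; ring
    have hd : dE r (2 ^ ((r + 2) * j)) (2 ^ j) r + 1 ≤ 2 ^ (c1 * j + 1) := by
      have h6 : 1 ≤ 2 ^ (c1 * j) := Nat.one_le_two_pow
      rw [pow_succ]
      omega
    have hlog : Nat.log 2 ((j + 1) * 2 ^ j) + 1 ≤ 3 * j := by
      have h5 : j + 1 ≤ 2 ^ j := Nat.lt_two_pow_self
      have h6 : Nat.log 2 ((j + 1) * 2 ^ j) ≤ 2 * j := by
        calc Nat.log 2 ((j + 1) * 2 ^ j) ≤ Nat.log 2 (2 ^ (2 * j)) := by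
              apply Nat.log_mono_right
              rw [two_mul, pow_add]
              exact Nat.mul_le_mul_right _ h5
          _ = 2 * j := Nat.log_pow (by norm_num) _
      omega
    calc (((j + 1) * 2 ^ j + 1) * (dE r (2 ^ ((r + 2) * j)) (2 ^ j) r + 1) ^ 2) ^ (Nat.log 2 ((j + 1) * 2 ^ j) + 1)
        ≤ (2 ^ (2 * j + 1) * (2 ^ (c1 * j + 1)) ^ 2) ^ (Nat.log 2 ((j + 1) * 2 ^ j) + 1) :=
          Nat.pow_le_pow_left (Nat.mul_le_mul hM (Nat.pow_le_pow_left hd 2)) _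
      _ ≤ (2 ^ (2 * j + 1) * (2 ^ (c1 * j + 1)) ^ 2) ^ (3 * j) := Nat.pow_le_pow_right (by positivity) hlog
      _ = 2 ^ ((2 * j + 1 + (c1 * j + 1) * 2) * (3 * j)) := by rw [← pow_mul, ← pow_add, ← pow_mul]
      _ ≤ 2 ^ (C * ((j + 1) * 2 ^ j)) := by
        apply Nat.pow_le_pow_right (by norm_num)
        have h5 : j ≤ 2 ^ j := (Nat.lt_two_pow_self (n := j)).le
        calc (2 * j + 1 + (c1 * j + 1) * 2) * (3 * j) ≤ ((2 * c1 + 5) * j) * (3 * j) := by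
              apply Nat.mul_le_mul_right
              nlinarith
          _ = 3 * (2 * c1 + 5) * (j * j) := by ring
          _ ≤ C * ((j + 1) * 2 ^ j) := by
              apply Nat.mul_le_mul (by omega)
              exact Nat.mul_le_mul (by omega) h5
  · -- the blocks
    have hj1 : 1 ≤ j := hj0.trans hj
    have k2 := h2 j hj1
    beta_reduce at k2
    obtain ⟨M, hM⟩ : ∃ M, M = (j + 1) * 2 ^ j := ⟨_, rfl⟩
    rw [← hM]
    have hM1 : j ≤ M := by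
      rw [hM]
      have := Nat.le_mul_of_pos_right (j + 1) (Nat.two_pow_pos j)
      omega
    have hM2 : M < 2 ^ M := Nat.lt_two_pow_self
    have k3 : tE r (2 ^ ((r + 2) * j)) (2 ^ j) r ≤ 2 ^ ((a + b + c2 + 3 * r + 3) * M) :=
      k2.trans (Nat.pow_le_pow_right (by norm_num) (Nat.mul_le_mul (by omega) hM1))
    have hMpos : 1 ≤ M := hj1.trans hM1
    have k4 : 2 ^ (a * M + b) ≤ 2 ^ ((a + b + c2 + 3 * r + 3) * M) := by
      apply Nat.pow_le_pow_right (by norm_num)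
      calc a * M + b ≤ a * M + b * M := Nat.add_le_add_left (Nat.le_mul_of_pos_right _ hMpos) _
        _ = (a + b) * M := by ring
        _ ≤ _ := Nat.mul_le_mul_right _ (by omega)
    have k5 : 3 * r + 3 ≤ 2 ^ ((a + b + c2 + 3 * r + 3) * M) := by
      refine (Nat.lt_two_pow_self (n := 3 * r + 3)).le.trans (Nat.pow_le_pow_right (by norm_num) ?_)
      calc 3 * r + 3 ≤ a + b + c2 + 3 * r + 3 := by omega
        _ ≤ _ := Nat.le_mul_of_pos_right _ hMpos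
    calc M * (2 ^ (a * M + b) + tE r (2 ^ ((r + 2) * j)) (2 ^ j) r + 3 * r + 3)
        ≤ 2 ^ M * (4 * 2 ^ ((a + b + c2 + 3 * r + 3) * M)) := Nat.mul_le_mul hM2.le (by omega)
      _ = 2 ^ (M + 2 + (a + b + c2 + 3 * r + 3) * M) := by
          rw [pow_add, pow_add]
          ring
      _ ≤ 2 ^ (C * M) := by
          apply Nat.pow_le_pow_right (by norm_num)
          calc M + 2 + (a + b + c2 + 3 * r + 3) * M ≤ M + 2 * M + (a + b + c2 + 3 * r + 3) * M := by omega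
            _ = (a + b + c2 + 3 * r + 6) * M := by ring
            _ ≤ C * M := Nat.mul_le_mul_right _ (by omega)

/-- ME2 -/
theorem stmtNumM (r a b : ℕ) : StmtNumM r a b := by
  obtain ⟨C, j₀, hC, hj0, h⟩ := numM r a b
  refine ⟨C, hC, j₀, hj0, fun j hj => ?_⟩
  obtain ⟨h1, h2, h3, h4⟩ := h j hj
  rw [← mul_assoc C] at h1 h3 h4
  exact ⟨h1, h2, h3, h4⟩

end Pool.Agent.Helper6.EA
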