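import Pool.Agent.Helper83.EA.NumM

/-!
# The border for monadic second-order sentences: the numbers, second version
-/

set_option autoImplicit false

namespace Pool.Agent.Helper6.EA

/-- the numbers, with `q = 2 ^ j`, `l = 2 ^ ((r + 2) * j)`, `M₀ = 2 ^ j`, `M₁ = 4 ^ j` -/
def NumN (r a b C j : ℕ) : Prop :=
  2 ^ (C * 2 ^ (j + 1)) * (cB r (dE r (2 ^ ((r + 2) * j)) (2 ^ j) r)) ^ 2 *
      (r * 2 ^ ((r + 2) * j) + 1) ^ r * 2 ^ j * ((2 ^ j) ^ r - 1) ^ 2 ^ ((r + 2) * j) ≤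
        ((2 ^ j) ^ r) ^ 2 ^ ((r + 2) * j) ∧
  (2 ^ j - 1) ^ (4 ^ j + 1) * 2 ^ j ≤ (2 ^ j) ^ (4 ^ j + 1) ∧
  ((4 ^ j + 1) * (dE r (2 ^ ((r + 2) * j)) (2 ^ j) r + 1) ^ 2) ^ (Nat.log 2 (4 ^ j) + 1) ≤ 2 ^ (C * 2 ^ j) ∧
  2 ^ j * (2 ^ (a * 2 ^ j + b) + tE r (2 ^ ((r + 2) * j)) (2 ^ j) r + 3 * r + 3) ≤ 2 ^ (C * 2 ^ j)

lemma sq_le_two_pow (j : ℕ) : j * j ≤ 2 ^ (j + 1) := by
  rcases Nat.lt_or_ge j 4 with h | h
  · interval_cases j <;> norm_num
  · induction j, h using Nat.le_induction with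
    | base => norm_num
    | succ j hj ih =>
      rw [pow_succ]
      nlinarith

theorem numN (r a b : ℕ) : ∃ C j₀ : ℕ, 1 ≤ C ∧ 1 ≤ j₀ ∧ ∀ j, j₀ ≤ j → NumN r a b C j := by
  obtain ⟨c1, h1⟩ := bd_dE2 r r
  obtain ⟨c2, h2⟩ := bd_tE2 r r
  obtain ⟨c3, h3⟩ := (((bd_cB r (bd_dE2 r r)).pow 2).mul
    (((bd_const r).mul (bd_two_pow (r + 2))).add (bd_const 1) |>.pow r)).mul bd_q
  obtain ⟨C, hC⟩ : ∃ C, C = 6 * (2 * c1 + 5) + (a + b + c2 + 3 * r + 8) := ⟨_, rfl⟩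
  obtain ⟨j₀, hj0, hlin⟩ := lin_le (2 * C + c3)
  refine ⟨C, j₀, by omega, hj0, fun j hj => ⟨?_, ?_, ?_, ?_⟩⟩
  · -- the union bound
    have hj1 : 1 ≤ j := hj0.trans hj
    have k1 := h3 j hj1
    beta_reduce at k1
    have k2 := hlin j hj
    have e1 : (2 ^ j) ^ r = 2 ^ (r * j) := by rw [← pow_mul, mul_comm]
    have e2 : 2 ^ ((r + 2) * j) = 2 ^ (r * j) * 2 ^ (2 * j) := by rw [← pow_add]; congr 1; ring
    have k3 := Pool.Agent.Helper12.EK.num_aux3 (q := 2 ^ (r * j)) Nat.one_le_two_pow (2 ^ (2 * j))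
    rw [e1]
    have k4 : 2 ^ (C * 2 ^ (j + 1)) * (cB r (dE r (2 ^ ((r + 2) * j)) (2 ^ j) r)) ^ 2 *
        (r * 2 ^ ((r + 2) * j) + 1) ^ r * 2 ^ j ≤ 2 ^ 2 ^ (2 * j) := by
      calc 2 ^ (C * 2 ^ (j + 1)) * (cB r (dE r (2 ^ ((r + 2) * j)) (2 ^ j) r)) ^ 2 *
          (r * 2 ^ ((r + 2) * j) + 1) ^ r * 2 ^ j
          = 2 ^ (C * 2 ^ (j + 1)) * ((cB r (dE r (2 ^ ((r + 2) * j)) (2 ^ j) r)) ^ 2 *
          (r * 2 ^ ((r + 2) * j) + 1) ^ r * 2 ^ j) := by simp only [mul_assoc]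
        _ ≤ 2 ^ (C * 2 ^ (j + 1)) * 2 ^ (c3 * j) := Nat.mul_le_mul_left _ k1
        _ = 2 ^ (C * 2 ^ (j + 1) + c3 * j) := (pow_add _ _ _).symm
        _ ≤ 2 ^ 2 ^ (2 * j) := by
          apply Nat.pow_le_pow_right (by norm_num)
          calc C * 2 ^ (j + 1) + c3 * j ≤ (2 * C + c3) * (j + 2) * 2 ^ j := by
                have h5 : 1 ≤ 2 ^ j := Nat.one_le_two_pow
                have h6 : c3 * j ≤ c3 * (j + 2) * 2 ^ j := by
                  calc c3 * j ≤ c3 * (j + 2) := Nat.mul_le_mul_left _ (by omega)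
                    _ ≤ _ := Nat.le_mul_of_pos_right _ (by omega)
                have h7 : C * 2 ^ (j + 1) ≤ 2 * C * (j + 2) * 2 ^ j := by
                  calc C * 2 ^ (j + 1) = 2 * C * 1 * 2 ^ j := by rw [pow_succ]; ring
                    _ ≤ 2 * C * (j + 2) * 2 ^ j :=
                      Nat.mul_le_mul_right _ (Nat.mul_le_mul_left _ (by omega))
                calc C * 2 ^ (j + 1) + c3 * j
                    ≤ 2 * C * (j + 2) * 2 ^ j + c3 * (j + 2) * 2 ^ j := Nat.add_le_add h7 h6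
                  _ = _ := by ring
            _ ≤ 2 ^ j * 2 ^ j := Nat.mul_le_mul_right _ k2
            _ = 2 ^ (2 * j) := by rw [← pow_add]; congr 1; ring
    rw [e2] at k4 ⊢
    exact (Nat.mul_le_mul_right _ k4).trans k3
  · -- the balls
    have h5 : j ≤ 2 ^ j := (Nat.lt_two_pow_self (n := j)).le
    have e : 4 ^ j = 2 ^ j * 2 ^ j := by rw [← mul_pow]; norm_num
    have k3 := Pool.Agent.Helper12.EK.num_aux4 (q := 2 ^ j) Nat.one_le_two_pow h5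
    rw [e, mul_comm ((2 ^ j - 1) ^ (2 ^ j * 2 ^ j + 1))]
    exact k3
  · -- the orbits
    have hj1 : 1 ≤ j := hj0.trans hj
    have k1 := h1 j hj1
    beta_reduce at k1
    have e : 4 ^ j = 2 ^ (2 * j) := by rw [pow_mul]; norm_num
    have hM : 4 ^ j + 1 ≤ 2 ^ (2 * j + 1) := by
      have h6 : 1 ≤ 2 ^ (2 * j) := Nat.one_le_two_pow
      rw [e, pow_succ]
      omega
    have hd : dE r (2 ^ ((r + 2) * j)) (2 ^ j) r + 1 ≤ 2 ^ (c1 * j + 1) := by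
      have h6 : 1 ≤ 2 ^ (c1 * j) := Nat.one_le_two_pow
      rw [pow_succ]
      omega
    have hlog : Nat.log 2 (4 ^ j) + 1 ≤ 3 * j := by
      rw [e, Nat.log_pow (by norm_num)]
      omega
    calc ((4 ^ j + 1) * (dE r (2 ^ ((r + 2) * j)) (2 ^ j) r + 1) ^ 2) ^ (Nat.log 2 (4 ^ j) + 1)
        ≤ (2 ^ (2 * j + 1) * (2 ^ (c1 * j + 1)) ^ 2) ^ (Nat.log 2 (4 ^ j) + 1) :=
          Nat.pow_le_pow_left (Nat.mul_le_mul hM (Nat.pow_le_pow_left hd 2)) _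
      _ ≤ (2 ^ (2 * j + 1) * (2 ^ (c1 * j + 1)) ^ 2) ^ (3 * j) := Nat.pow_le_pow_right (by positivity) hlog
      _ = 2 ^ ((2 * j + 1 + (c1 * j + 1) * 2) * (3 * j)) := by rw [← pow_mul, ← pow_add, ← pow_mul]
      _ ≤ 2 ^ (C * 2 ^ j) := by
        apply Nat.pow_le_pow_right (by norm_num)
        have h5 := sq_le_two_pow j
        calc (2 * j + 1 + (c1 * j + 1) * 2) * (3 * j) ≤ ((2 * c1 + 5) * j) * (3 * j) := by
              apply Nat.mul_le_mul_right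
              nlinarith
          _ = 3 * (2 * c1 + 5) * (j * j) := by ring
          _ ≤ 3 * (2 * c1 + 5) * 2 ^ (j + 1) := Nat.mul_le_mul_left _ h5
          _ = 6 * (2 * c1 + 5) * 2 ^ j := by rw [pow_succ]; ring
          _ ≤ C * 2 ^ j := Nat.mul_le_mul_right _ (by omega)
  · -- the blocks
    have hj1 : 1 ≤ j := hj0.trans hj
    have k2 := h2 j hj1
    beta_reduce at k2
    obtain ⟨M, hM⟩ : ∃ M, M = 2 ^ j := ⟨_, rfl⟩
    have hM1 : j ≤ M := by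
      rw [hM]
      exact (Nat.lt_two_pow_self (n := j)).le
    have hM2 : M < 2 ^ M := Nat.lt_two_pow_self
    have k3 : tE r (2 ^ ((r + 2) * j)) (2 ^ j) r ≤ 2 ^ ((a + b + c2 + 3 * r + 3) * M) :=
      k2.trans (Nat.pow_le_pow_right (by norm_num) (Nat.mul_le_mul (by omega) hM1))
    have hMpos : 1 ≤ M := hj1.trans hM1
    have k4 : 2 ^ (a * M + b) ≤ 2 ^ ((a + b + c2 + 3 * r + 3) * M) := by
      apply Nat.pow_le_pow_right (by norm_num)
      calc a * M + b ≤ a * M + b * M := Nat.add_le_add_left (Nat.le_mul_of_pos_right _ hMpos) _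
        _ = (a + b) * M := by ring
        _ ≤ _ := Nat.mul_le_mul_right _ (by omega)
    have k5 : 3 * r + 3 ≤ 2 ^ ((a + b + c2 + 3 * r + 3) * M) := by
      refine (Nat.lt_two_pow_self (n := 3 * r + 3)).le.trans (Nat.pow_le_pow_right (by norm_num) ?_)
      calc 3 * r + 3 ≤ a + b + c2 + 3 * r + 3 := by omega
        _ ≤ _ := Nat.le_mul_of_pos_right _ hMpos
    have k6 : M * (2 ^ (a * M + b) + tE r (2 ^ ((r + 2) * j)) (2 ^ j) r + 3 * r + 3) ≤ 2 ^ (C * M) := by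
      calc M * (2 ^ (a * M + b) + tE r (2 ^ ((r + 2) * j)) (2 ^ j) r + 3 * r + 3)
          ≤ 2 ^ M * (4 * 2 ^ ((a + b + c2 + 3 * r + 3) * M)) := Nat.mul_le_mul hM2.le (by omega)
        _ = 2 ^ (M + 2 + (a + b + c2 + 3 * r + 3) * M) := by
            rw [pow_add, pow_add]
            ring
        _ ≤ 2 ^ (C * M) := by
            apply Nat.pow_le_pow_right (by norm_num)
            calc M + 2 + (a + b + c2 + 3 * r + 3) * M ≤ M + 2 * M + (a + b + c2 + 3 * r + 3) * M := by omega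
              _ = (a + b + c2 + 3 * r + 6) * M := by ring
              _ ≤ C * M := Nat.mul_le_mul_right _ (by omega)
    rw [hM] at k6
    exact k6

end Pool.Agent.Helper6.EA
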