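import Pool.Agent.Helper83.EA.StepN
import Pool.Agent.Helper83.EA.NumN
import Pool.Agent.Helper58.ME.Main

/-!
# Many automorphisms give exponentially large families: the sharp form
-/

set_option autoImplicit false

namespace Pool.Agent.Helper6.EA

open FirstOrder Pool.Agent.Helper20.Spectra Pool.Agent.Helper31.QD Pool.Agent.Helper38.MC
  Pool.Agent.Helper58.QD Pool.Agent.Helper40.MC Pool.Agent.Helper6.MC

/-- the induction over the scales `T, T - 1, ..., j₀` -/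
theorem keyN_ind (r a b C j₀ : ℕ) (hStep : StmtStepN r) (hCard : StmtCardGA)
    (hnum : ∀ j, j₀ ≤ j → NumN r a b C j)
    (S : Type) (ar : S → ℕ) (har : ∀ s, ar s ≤ r) (n : ℕ) (R : Interp S ar (Fin n))
    (hfam : ∀ j, j₀ ≤ j → ∀ t, 1 ≤ t → t ≤ 2 ^ j → ¬ FamR R (2 ^ (a * 2 ^ j + b)) t) (T : ℕ) (hT0 : j₀ ≤ T)
    (hT : n ≤ 2 ^ (C * 2 ^ T)) :
    Nat.card (AuG R) ≤ 2 ^ ((T - j₀) * (4 * (r * (r + 3) + 3) * C * n) + C * 2 ^ j₀ * n) := by
  classical
  obtain ⟨c, hc⟩ : ∃ c, c = r * (r + 3) + 3 := ⟨_, rfl⟩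
  rw [← hc]
  obtain ⟨G, hG⟩ : ∃ G, G = Nat.card (AuG R) := ⟨_, rfl⟩
  rw [← hG]
  obtain ⟨H, hH⟩ : ∃ H : Finset (Fin n) → ℕ, H = fun F => (GA R F).card := ⟨_, rfl⟩
  have hH0 : H ∅ = G := by
    rw [hH, hG]
    show (GA R ∅).card = Nat.card {g : Equiv.Perm (Fin n) // g ∈ AuG R}
    rw [Nat.card_eq_fintype_card, Fintype.card_subtype]
    congr 1
    ext g
    rw [mem_GS, Finset.mem_filter]
    simp
  have hcard : ∀ (A B : Finset (Fin n)) (s : ℕ), (∀ x, (oA R A x).card ≤ s) →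
      H A ≤ s ^ B.card * H (A ∪ B) := by
    intro A B s hs
    rw [hH]
    show (GA R A).card ≤ s ^ B.card * (GA R (A ∪ B)).card
    refine (hCard S ar (Fin n) R A B s hs).trans (le_of_eq ?_)
    refine congrArg (fun F : Finset (Fin n) => s ^ B.card * (GA R F).card) (Finset.ext fun x => ?_)
    simp only [Finset.mem_union]
  obtain ⟨W, hW⟩ : ∃ W, W = 4 * c * C * n := ⟨_, rfl⟩
  rw [← hW]
  -- the induction
  have hind : ∀ d j, j + d = T → j₀ ≤ j → ∃ A : Finset (Fin n),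
      2 ^ j * A.card ≤ 2 * (c * n) ∧ (∀ x, (oA R A x).card ≤ 2 ^ (C * 2 ^ j)) ∧
      G ≤ 2 ^ (d * W) * H A := by
    intro d
    induction d with
    | zero =>
      intro j hj _
      obtain rfl : j = T := by omega
      refine ⟨∅, by simp, fun x => ?_, ?_⟩
      · refine (Finset.card_le_univ _).trans ?_
        rw [Fintype.card_fin]
        exact hT
      · rw [hH0]
        exact Nat.le_mul_of_pos_left _ (by positivity)
    | succ d ih =>
      intro j hj hj0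
      obtain ⟨A', hA1, hA2, hA3⟩ := ih (j + 1) (by omega) (by omega)
      obtain ⟨n1, n2, n3, n4⟩ := hnum j hj0
      obtain ⟨A, hAA, hA4, hA5⟩ := hStep S ar har (Fin n) R A' _ _ (2 ^ j) (2 ^ ((r + 2) * j))
        (2 ^ j) (4 ^ j) (2 ^ (a * 2 ^ j + b)) Nat.one_le_two_pow le_rfl hA2 n1 n2 n3 n4 (hfam j hj0)
      rw [Fintype.card_fin, ← hc] at hA4
      have h5 : 2 * (2 ^ j * A'.card) ≤ 2 * (c * n) := by
        calc 2 * (2 ^ j * A'.card) = 2 ^ (j + 1) * A'.card := by ring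
          _ ≤ _ := hA1
      have h6 : 2 ^ j * A.card ≤ 2 * (c * n) := by omega
      refine ⟨A, h6, hA5, ?_⟩
      have h3 := hcard A' A _ hA2
      rw [Finset.union_eq_right.2 hAA] at h3
      have h4 : (2 ^ (C * 2 ^ (j + 1))) ^ A.card ≤ 2 ^ W := by
        rw [← pow_mul]
        apply Nat.pow_le_pow_right (by norm_num)
        calc C * 2 ^ (j + 1) * A.card = 2 * C * (2 ^ j * A.card) := by ring
          _ ≤ 2 * C * (2 * (c * n)) := Nat.mul_le_mul_left _ h6
          _ = W := by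
            rw [hW]
            ring
      calc G ≤ 2 ^ (d * W) * H A' := hA3
        _ ≤ 2 ^ (d * W) * (2 ^ W * H A) :=
            Nat.mul_le_mul_left _ (h3.trans (Nat.mul_le_mul_right _ h4))
        _ = 2 ^ ((d + 1) * W) * H A := by
            rw [← mul_assoc, ← pow_add]
            congr 2
            ring
  obtain ⟨A, hA1, hA2, hA3⟩ := hind (T - j₀) j₀ (by omega) le_rfl
  have h1 := hcard A Finset.univ _ hA2
  have h2 : H (A ∪ Finset.univ) ≤ 1 := by
    rw [hH]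
    show (GA R (A ∪ Finset.univ)).card ≤ 1
    rw [Finset.card_le_one]
    intro g hg g' hg'
    rw [mem_GS] at hg hg'
    exact Equiv.ext fun x => (hg.2 x (by simp)).trans (hg'.2 x (by simp)).symm
  have h3 : H A ≤ (2 ^ (C * 2 ^ j₀)) ^ n := by
    rw [Finset.card_univ, Fintype.card_fin] at h1
    exact h1.trans ((Nat.mul_le_mul_left _ h2).trans (le_of_eq (mul_one _)))
  calc G ≤ 2 ^ ((T - j₀) * W) * H A := hA3
    _ ≤ 2 ^ ((T - j₀) * W) * (2 ^ (C * 2 ^ j₀)) ^ n := Nat.mul_le_mul_left _ h3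
    _ = 2 ^ ((T - j₀) * W + C * 2 ^ j₀ * n) := by
        rw [← pow_mul, ← pow_add]

/-- many automorphisms give a family with at least `2 ^ (a t) (log n) ^ 2` blocks of `t` points -/
theorem keyN : Pool.Agent.Helper58.ME.KeyG (fun C n => 2 ^ (C * n * (Nat.log 2 (Nat.log 2 n + 1) + 1))) := by
  intro r a
  obtain ⟨C, j₀, hC1, hj1, hnum⟩ := numN r (a + 2) 0
  obtain ⟨c, hc⟩ : ∃ c, c = r * (r + 3) + 3 := ⟨_, rfl⟩
  refine ⟨4 * c * C + 2 * C, 2 ^ 2 ^ 2 ^ j₀, ?_⟩
  intro n hn S ar har R hfam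
  show Nat.card (AuG R) ≤ 2 ^ ((4 * c * C + 2 * C) * n * (Nat.log 2 (Nat.log 2 n + 1) + 1))
  obtain ⟨L, hL⟩ : ∃ L, L = Nat.log 2 (Nat.log 2 n + 1) + 1 := ⟨_, rfl⟩
  rw [← hL]
  obtain ⟨j₂, hj₂⟩ : ∃ j₂, j₂ = Nat.log 2 L + 1 := ⟨_, rfl⟩
  have hL1 : 1 ≤ L := by omega
  have hlog : Nat.log 2 n + 1 < 2 ^ L := by
    rw [hL]
    exact Nat.lt_pow_succ_log_self (by norm_num) _
  have h2L : L < 2 ^ j₂ := by
    rw [hj₂]
    exact Nat.lt_pow_succ_log_self (by norm_num) _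
  have h2L' : 2 ^ j₂ ≤ 2 * L := by
    have h1 : 2 ^ Nat.log 2 L ≤ L := Nat.pow_log_le_self 2 (by omega)
    rw [hj₂, pow_succ]
    omega
  have hjL : j₂ ≤ L := by
    have h1 : Nat.log 2 L < L := Nat.log_lt_self 2 (by omega)
    omega
  have hj0 : j₀ ≤ j₂ := by
    have h1 : 2 ^ 2 ^ j₀ ≤ Nat.log 2 n := by
      have := Nat.log_mono_right (b := 2) hn
      rwa [Nat.log_pow (by norm_num)] at this
    have h2 : 2 ^ j₀ ≤ Nat.log 2 (Nat.log 2 n + 1) := by
      have := Nat.log_mono_right (b := 2) (h1.trans (Nat.le_succ _))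
      rwa [Nat.log_pow (by norm_num)] at this
    have h3 : j₀ ≤ Nat.log 2 L := by
      have := Nat.log_mono_right (b := 2) (h2.trans (by omega : _ ≤ L))
      rwa [Nat.log_pow (by norm_num)] at this
    omega
  have h := keyN_ind r (a + 2) 0 C j₂ (stepN83 r) cardGA (fun j hj => hnum j (hj0.trans hj)) S ar har n R
    (fun j hj t ht1 ht2 hF => by
      apply hfam t ht1
      refine FamR.fewer hF ?_
      have hM : L ≤ 2 ^ j := by
        have h1 : 2 ^ j₂ ≤ 2 ^ j := Nat.pow_le_pow_right (by norm_num) hj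
        omega
      have hlam : Pool.Agent.Helper6.MC.lam n ≤ 2 ^ 2 ^ j := by
        refine le_trans ?_ (Nat.pow_le_pow_right (by norm_num) hM)
        unfold Pool.Agent.Helper6.MC.lam
        exact hlog.le
      calc 2 ^ (a * t) * Pool.Agent.Helper6.MC.lam n ^ 2
          ≤ 2 ^ (a * 2 ^ j) * (2 ^ 2 ^ j) ^ 2 :=
            Nat.mul_le_mul (Nat.pow_le_pow_right (by norm_num) (Nat.mul_le_mul_left _ ht2))
              (Nat.pow_le_pow_left hlam 2)
        _ = 2 ^ ((a + 2) * 2 ^ j + 0) := by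
            rw [← pow_mul, ← pow_add]
            congr 1
            ring) L hjL (by
      have h1 : n < 2 ^ (Nat.log 2 n + 1) := Nat.lt_pow_succ_log_self (by norm_num) n
      have h5 : Nat.log 2 n + 1 ≤ C * 2 ^ L :=
        hlog.le.trans (Nat.le_mul_of_pos_left _ hC1)
      exact h1.le.trans (Nat.pow_le_pow_right (by norm_num) h5))
  rw [← hc] at h
  refine h.trans ?_
  apply Nat.pow_le_pow_right (by norm_num)
  have h7 : (L - j₂) * (4 * c * C * n) ≤ L * (4 * c * C * n) := Nat.mul_le_mul_right _ (by omega)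
  have h8 : C * 2 ^ j₂ * n ≤ C * (2 * L) * n := Nat.mul_le_mul_right _ (Nat.mul_le_mul_left _ h2L')
  calc (L - j₂) * (4 * c * C * n) + C * 2 ^ j₂ * n
      ≤ L * (4 * c * C * n) + C * (2 * L) * n := Nat.add_le_add h7 h8
    _ = _ := by ring

/-- **The border for monadic second-order sentences**: at most `n! / (log n) ^ (C n)` models give bounded families -/
theorem famBddM (S : Type) [Finite S] (ar : S → ℕ) (φ : Pool.Agent.Helper14.SS.SFm (RelLang S ar) 0 0) :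
    ∃ C : ℕ, (∀ᶠ n : ℕ in Filter.atTop,
      Pool.Agent.Helper40.MCM.countM φ n * (Nat.log 2 n + 1) ^ (C * n) ≤ n.factorial) →
      Pool.Agent.Helper40.MCM.FamBdd φ :=
  Pool.Agent.Helper58.ME.famBddM_lam keyN S ar φ

end Pool.Agent.Helper6.EA
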