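import Pool.Agent.Helper6.EA.Same

/-!
# Minority patterns for a larger fixed set
-/

set_option autoImplicit false

namespace Pool.Agent.Helper6.EA

open FirstOrder Pool.Agent.Helper20.Spectra Pool.Agent.Helper31.QD Pool.Agent.Helper38.MC
  Pool.Agent.Helper58.QD Pool.Agent.Helper40.MC Pool.Agent.Helper6.MC
open Pool.Agent.Helper12.EK (Gr Ball Cmp)

variable {S : Type} {ar : S → ℕ} {V : Type} [Fintype V]

open Classical in
/-- few elements `h` of the group have `h ∘ u` in a small set of tuples -/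
theorem few_moves {k : ℕ} (G : Subgroup (Equiv.Perm V)) (A : Finset V) (u : Fin (k + 1) → V)
    (Q : (Fin (k + 1) → V) → Prop) (M : Finset (Equiv.Perm V)) (hM : M ⊆ GS G A) (hQ : ∀ h ∈ M, Q (h ∘ u)) :
    M.card * (orb (G ⊓ fixP (A : Set V)) (u 0)).card ≤
      Nat.card {u' : Fin (k + 1) → V // Q u'} * (GS G A).card := by
  have h1 : M ⊆ (Finset.univ.filter fun u' : Fin (k + 1) → V => Q u').biUnion
      fun u' => (GS G A).filter fun g : Equiv.Perm V => g (u 0) = u' 0 := by
    intro h hh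
    rw [Finset.mem_biUnion]
    exact ⟨h ∘ u, Finset.mem_filter.2 ⟨Finset.mem_univ _, hQ h hh⟩, Finset.mem_filter.2 ⟨hM hh, rfl⟩⟩
  have h2 : Nat.card {u' : Fin (k + 1) → V // Q u'} = (Finset.univ.filter fun u' : Fin (k + 1) → V => Q u').card := by
    rw [Nat.card_eq_fintype_card, Fintype.card_subtype]
  rw [h2]
  calc M.card * (orb (G ⊓ fixP (A : Set V)) (u 0)).card
      ≤ (∑ u' ∈ Finset.univ.filter fun u' : Fin (k + 1) → V => Q u',
          ((GS G A).filter fun g : Equiv.Perm V => g (u 0) = u' 0).card) * (orb (G ⊓ fixP (A : Set V)) (u 0)).card :=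
        Nat.mul_le_mul_right _ ((Finset.card_le_card h1).trans Finset.card_biUnion_le)
    _ = ∑ u' ∈ Finset.univ.filter fun u' : Fin (k + 1) → V => Q u',
          ((GS G A).filter fun g : Equiv.Perm V => g (u 0) = u' 0).card * (orb (G ⊓ fixP (A : Set V)) (u 0)).card :=
        Finset.sum_mul _ _ _
    _ ≤ ∑ _u' ∈ Finset.univ.filter fun u' : Fin (k + 1) → V => Q u', (GS G A).card :=
        Finset.sum_le_sum fun u' _ => stab_card G A (u 0) (u' 0)
    _ = _ := by rw [Finset.sum_const, smul_eq_mul]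

/-- EA5: persistence for a larger fixed set `A'`: a minority pattern for `A'` is one for `A`, or it is one for at least half of
the `h ∘ u`; then some `w ∈ out p` is in `N (h ∘ u)` for at least `#G' / (2 r)` elements `h`, so for more than `θ` tuples -/
theorem layer {r θ : ℕ} (har : ∀ s, ar s ≤ r) (R : Interp S ar V) {A A' : Finset V} (hA : A ⊆ A')
    (U : (Fin (r + 1) → V) → Prop) (hU : ∀ h ∈ GA R A, ∀ u, U u → U (h ∘ u)) {N : (Fin (r + 1) → V) → Finset V}
    (hN : ∀ u, U u → ∀ (s : S) (p : Fin (ar s) → V ⊕ Fin (r + 1)), Min R A u s p → ∃ w ∈ out p, w ∈ N u)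
    {u : Fin (r + 1) → V} (hu : U u) (hO : 2 * r * θ < (oA R A' (u 0)).card) {s : S}
    {p : Fin (ar s) → V ⊕ Fin (r + 1)} (hp : Min R A' u s p) :
    ∃ w ∈ out p, w ∈ N u ∨ θ < Nat.card {u' : Fin (r + 1) → V // U u' ∧ w ∈ N u'} := by
  classical
  by_cases h0 : Min R A u s p
  · obtain ⟨w, hw, hwN⟩ := hN u hu s p h0
    exact ⟨w, hw, Or.inl hwN⟩
  have hsub : ∀ g ∈ GA R A', g ∈ GA R A := fun g hg =>
    mem_GS.2 ⟨(mem_GS.1 hg).1, fun x hx => (mem_GS.1 hg).2 x (hA hx)⟩
  have h1 : 1 ∈ GA R A' := mem_GS.2 ⟨Subgroup.one_mem _, fun _ _ => rfl⟩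
  have hpos : 0 < (GA R A').card := Finset.card_pos.2 ⟨1, h1⟩
  -- the elements which change the value
  obtain ⟨M, hM⟩ : ∃ M, M = (GA R A').filter fun h : Equiv.Perm V => ¬ (R s (ev (h ∘ u) p) ↔ R s (ev u p)) := ⟨_, rfl⟩
  have hMc : (GA R A').card ≤ 2 * M.card := by
    have e3 := Finset.card_filter_add_card_filter_not (s := GA R A')
      (fun h : Equiv.Perm V => (R s (ev (h ∘ u) p) ↔ R s (ev u p)))
    have e4 : 2 * ((GA R A').filter fun h : Equiv.Perm V => (R s (ev (h ∘ u) p) ↔ R s (ev u p))).card ≤ (GA R A').card := by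
      unfold Min at hp
      convert hp using 2
    rw [hM]
    omega
  have hex : ∀ h ∈ M, ∃ w ∈ out p, w ∈ N (h ∘ u) := by
    intro h hh
    rw [hM, Finset.mem_filter] at hh
    have h2 : Min R A (h ∘ u) s p := by
      by_contra h2
      exact hh.2 (same R (hsub h hh.1) h0 h2)
    exact hN _ (hU h (hsub h hh.1) u hu) s p h2
  have hout : (out p).card ≤ r := (card_out p).trans (har s)
  by_contra hcon
  push Not at hcon
  have hfew : ∀ w ∈ out p, (M.filter fun h : Equiv.Perm V => w ∈ N (h ∘ u)).card * (oA R A' (u 0)).card ≤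
      θ * (GA R A').card := by
    intro w hw
    refine (few_moves (AuG R) A' u (fun u' => U u' ∧ w ∈ N u') _ ?_ ?_).trans
      (Nat.mul_le_mul_right _ (hcon w hw).2)
    · intro h hh
      rw [Finset.mem_filter, hM, Finset.mem_filter] at hh
      exact hh.1.1
    · intro h hh
      rw [Finset.mem_filter, hM, Finset.mem_filter] at hh
      exact ⟨hU h (hsub h hh.1.1) u hu, hh.2⟩
  have hsum : M.card ≤ ∑ w ∈ out p, (M.filter fun h : Equiv.Perm V => w ∈ N (h ∘ u)).card := by
    refine le_trans (Finset.card_le_card ?_) Finset.card_biUnion_le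
    intro h hh
    obtain ⟨w, hw, hwN⟩ := hex h hh
    rw [Finset.mem_biUnion]
    exact ⟨w, hw, Finset.mem_filter.2 ⟨hh, hwN⟩⟩
  have hall : M.card * (oA R A' (u 0)).card ≤ r * (θ * (GA R A').card) :=
    calc M.card * (oA R A' (u 0)).card
        ≤ (∑ w ∈ out p, (M.filter fun h : Equiv.Perm V => w ∈ N (h ∘ u)).card) * (oA R A' (u 0)).card :=
          Nat.mul_le_mul_right _ hsum
      _ = ∑ w ∈ out p, (M.filter fun h : Equiv.Perm V => w ∈ N (h ∘ u)).card * (oA R A' (u 0)).card :=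
          Finset.sum_mul _ _ _
      _ ≤ ∑ _w ∈ out p, θ * (GA R A').card := Finset.sum_le_sum hfew
      _ = (out p).card * (θ * (GA R A').card) := by rw [Finset.sum_const, smul_eq_mul]
      _ ≤ r * (θ * (GA R A').card) := Nat.mul_le_mul_right _ hout
  have hfin : (GA R A').card * (oA R A' (u 0)).card ≤ (GA R A').card * (2 * r * θ) :=
    calc (GA R A').card * (oA R A' (u 0)).card ≤ 2 * M.card * (oA R A' (u 0)).card := Nat.mul_le_mul_right _ hMc
      _ = 2 * (M.card * (oA R A' (u 0)).card) := by ring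
      _ ≤ 2 * (r * (θ * (GA R A').card)) := Nat.mul_le_mul_left _ hall
      _ = (GA R A').card * (2 * r * θ) := by ring
  exact absurd (Nat.le_of_mul_le_mul_left hfin hpos) (by omega)

end Pool.Agent.Helper6.EA
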