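import Pool.Agent.Helper6.EA.Main
import Pool.Agent.Helper85.EA.StepN

/-!
# One step, with few points in the components which contain no fixed points
-/

set_option autoImplicit false
set_option linter.unusedSectionVars false

namespace Pool.Agent.Helper6.EA

open FirstOrder Pool.Agent.Helper20.Spectra Pool.Agent.Helper31.QD Pool.Agent.Helper38.MC
  Pool.Agent.Helper58.QD Pool.Agent.Helper40.MC Pool.Agent.Helper6.MC

/-- one step: components with more than `M₀` points are hit, so the free ones have at most `M₀` points; `M₁` bounds the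
free balls -/
def StmtStepN (r : ℕ) : Prop := ∀ (S : Type) (ar : S → ℕ), (∀ s, ar s ≤ r) → ∀ (V : Type)
    [Fintype V] (R : Interp S ar V) (A₀ : Finset V) (s s' q l M₀ M₁ D : ℕ), 1 ≤ q → q ≤ M₀ →
    (∀ x, (oA R A₀ x).card ≤ s) →
    s * (cB r (dE r l q r)) ^ 2 * (r * l + 1) ^ r * q * (q ^ r - 1) ^ l ≤ (q ^ r) ^ l →
    (q - 1) ^ (M₁ + 1) * q ≤ q ^ (M₁ + 1) →
    ((M₁ + 1) * (dE r l q r + 1) ^ 2) ^ (Nat.log 2 M₁ + 1) ≤ s' →
    M₀ * (D + tE r l q r + 3 * r + 3) ≤ s' → (∀ t, 1 ≤ t → t ≤ M₀ → ¬ FamR R D t) →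
    ∃ A, A₀ ⊆ A ∧ q * A.card ≤ q * A₀.card + (r * (r + 3) + 3) * Fintype.card V ∧
      ∀ x, (oA R A x).card ≤ s'

theorem stepN83 (r : ℕ) : StmtStepN r :=
  stepN_of
    (fun _ _ har _ _ R _ _ _ _ hq hs hl => rounds_of_round
      (fun _ _ har _ _ R _ _ _ _ _ hq hs U hU hB hl => round har R hq hs U hU hB hl) har R hq hs hl)
    (fun _ _ har _ _ _ R _ _ _ _ hG _ _ _ hk hO => small_fam har R hG hk hO)

end Pool.Agent.Helper6.EA
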